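import Pool.Agent.H63.Santalo
import Pool.Agent.H63.BoxSharp

set_option autoImplicit false

namespace Pool.Agent.Results.MP_5f7e36_co.Exact

/-- The Helly number `h_L(d)` for line transversals to finite families of axis-parallel boxes in
`ℝ^d` equals `2^(d-1) (2d-1)` for every `d ≥ 2`. -/
theorem result (d : ℕ) (hd : 2 ≤ d) :
    IsLeast {h : ℕ | ∀ F : Finset (Set (Fin d → ℝ)),
      (∀ B ∈ F, ∃ a b : Fin d → ℝ, (∀ i, a i < b i) ∧ B = {x | ∀ i, a i ≤ x i ∧ x i ≤ b i}) →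
      (∀ S ⊆ F, S.card ≤ h → ∃ p v : Fin d → ℝ, v ≠ 0 ∧ ∀ B ∈ S, ∃ t : ℝ, p + t • v ∈ B) →
      ∃ p v : Fin d → ℝ, v ≠ 0 ∧ ∀ B ∈ F, ∃ t : ℝ, p + t • v ∈ B}
      (2 ^ (d - 1) * (2 * d - 1)) := by
  refine ⟨fun F hF H => Pool.Agent.H63.Santalo.upper d (by omega) F hF H, fun h hh => ?_⟩
  by_contra hlt
  obtain ⟨F, h1, h2, h3⟩ := Pool.Agent.H63.BoxSharp.sharp d hd
  exact h3 (hh F h1 fun S hS hc => h2 S hS (by omega))

end Pool.Agent.Results.MP_5f7e36_co.Exact
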